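import Pool.Agent.N623.CS.Stm

/-!
# The space of equivalence relations with infinitely many classes is Polish, and the relation is
a countable union of closed sets (helper505, project CS of helper623)
-/

set_option autoImplicit false

namespace Pool.Agent.N505.CS

open Set Topology Pool.Agent.N623.CS

theorem inf (A : EInf) : (Set.ofPred (fun m => m ∈ mins A.1)).Infinite := A.2

theorem mu_mono (A : EInf) : StrictMono (mu A) := Nat.nth_strictMono (inf A)

theorem mu_mem (A : EInf) (n : ℕ) : mu A n ∈ mins A.1 := Nat.nth_mem_of_infinite (inf A) n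

theorem range_mu (A : EInf) : Set.range (mu A) = mins A.1 := Nat.range_nth_of_infinite (inf A)

theorem exists_mu (A : EInf) (m : ℕ) : ∃ n, A.1.r m (mu A n) := by
  classical
  have h : ∃ k, A.1.r k m := ⟨m, A.1.refl' m⟩
  have h1 : Nat.find h ∈ mins A.1 := by
    intro k hk hr
    exact Nat.find_min h hk (A.1.trans' hr (Nat.find_spec h))
  rw [← range_mu A] at h1
  obtain ⟨n, hn⟩ := h1
  exact ⟨n, hn ▸ A.1.symm' (Nat.find_spec h)⟩

/-- the index of the class -/
noncomputable def fA (A : EInf) (m : ℕ) : ℕ := (exists_mu A m).choose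

theorem fA_spec (A : EInf) (m : ℕ) : A.1.r m (mu A (fA A m)) := (exists_mu A m).choose_spec

theorem mu_inj (A : EInf) {n n' : ℕ} (h : A.1.r (mu A n) (mu A n')) : n = n' := by
  rcases lt_trichotomy n n' with h1 | h1 | h1
  · exact absurd h (mu_mem A n' _ (mu_mono A h1))
  · exact h1
  · exact absurd (A.1.symm' h) (mu_mem A n _ (mu_mono A h1))

theorem r_iff (A : EInf) (m n : ℕ) : A.1.r m (mu A n) ↔ fA A m = n := by
  constructor
  · intro h
    exact mu_inj A (A.1.trans' (A.1.symm' (fA_spec A m)) h)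
  · rintro rfl
    exact fA_spec A m

theorem fA_mu (A : EInf) (n : ℕ) : fA A (mu A n) = n := (r_iff A _ n).1 (A.1.refl' _)

theorem rel_iff (A : EInf) (k m : ℕ) : A.1.r k m ↔ fA A k = fA A m := by
  constructor
  · intro h
    exact (r_iff A k _).1 (A.1.trans' h (fA_spec A m))
  · intro h
    have h1 := fA_spec A k
    rw [h] at h1
    exact A.1.trans' h1 (A.1.symm' (fA_spec A m))

theorem mem_mins_iff (A : EInf) (m : ℕ) : m ∈ mins A.1 ↔ ∀ k, k < m → fA A k ≠ fA A m := by
  unfold mins
  simp only [mem_ofPred_eq, rel_iff, ne_eq]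

theorem mu_le (A : EInf) (m : ℕ) : mu A (fA A m) ≤ m := by
  by_contra h
  push Not at h
  exact mu_mem A (fA A m) m h (fA_spec A m)

theorem code_iff (A : EInf) (n m : ℕ) : code A (n, m) = true ↔ fA A m = n := by
  unfold code
  simp only [decide_eq_true_eq]
  exact r_iff A m n

/-- the coordinates -/
noncomputable def phi (A : EInf) : (ℕ → ℕ) × (ℕ → ℕ) := (fA A, mu A)

/-- from the coordinates to the code -/
def gam (p : (ℕ → ℕ) × (ℕ → ℕ)) : ℕ × ℕ → Bool := fun q => decide (p.1 q.2 = q.1)

theorem gam_phi : gam ∘ phi = code := by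
  funext A q
  obtain ⟨n, m⟩ := q
  show decide (fA A m = n) = code A (n, m)
  rw [Bool.eq_iff_iff, decide_eq_true_eq, code_iff]

theorem cont_gam : Continuous gam := by
  refine continuous_pi fun q => ?_
  have h1 : Continuous (fun p : (ℕ → ℕ) × (ℕ → ℕ) => p.1 q.2) :=
    (continuous_apply q.2).comp continuous_fst
  exact (continuous_of_discreteTopology (f := fun k : ℕ => decide (k = q.1))).comp h1

theorem cont_code : Continuous code := continuous_induced_dom

theorem cont_codeq (q : ℕ × ℕ) : Continuous (fun A => code A q) :=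
  (continuous_apply q).comp cont_code

theorem open_code (q : ℕ × ℕ) (b : Bool) : IsOpen {A : EInf | code A q = b} :=
  (isOpen_discrete {b}).preimage (cont_codeq q)

theorem cont_fA (m : ℕ) : Continuous (fun A => fA A m) := by
  rw [continuous_discrete_rng]
  intro n
  have h : (fun A => fA A m) ⁻¹' {n} = {A | code A (n, m) = true} := by
    ext A
    simp only [mem_preimage, mem_singleton_iff, mem_ofPred_eq, code_iff]
  rw [h]
  exact open_code _ _

theorem mu_eq_iff (A : EInf) (n m : ℕ) :
    mu A n = m ↔ fA A m = n ∧ ∀ j, j < m → fA A j ≠ n := by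
  constructor
  · rintro rfl
    refine ⟨fA_mu A n, fun j hj h => ?_⟩
    have := mu_le A j
    rw [h] at this
    omega
  · rintro ⟨h1, h2⟩
    have h3 := mu_le A m
    rw [h1] at h3
    rcases h3.lt_or_eq with h4 | h4
    · exact absurd (fA_mu A n) (h2 _ h4)
    · exact h4

theorem cont_mu (n : ℕ) : Continuous (fun A => mu A n) := by
  rw [continuous_discrete_rng]
  intro m
  have h : (fun A => mu A n) ⁻¹' {m} =
      {A | fA A m = n} ∩ ⋂ j ∈ Finset.range m, {A | fA A j ≠ n} := by
    ext A
    simp only [mem_preimage, mem_singleton_iff, mu_eq_iff, mem_inter_iff, mem_ofPred_eq,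
      mem_iInter, Finset.mem_range]
  rw [h]
  refine ((isOpen_discrete {n}).preimage (cont_fA m)).inter ?_
  refine isOpen_biInter_finset fun j _ => ?_
  exact (isOpen_discrete {n}ᶜ).preimage (cont_fA j)

theorem cont_phi : Continuous phi :=
  Continuous.prodMk (continuous_pi fun m => cont_fA m) (continuous_pi fun n => cont_mu n)

theorem inj_phi : Function.Injective phi := by
  intro A B h
  have h1 : fA A = fA B := congrArg Prod.fst h
  apply Subtype.ext
  apply Setoid.ext
  intro k m
  show A.1.r k m ↔ B.1.r k m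
  rw [rel_iff, rel_iff, h1]

/-- the closed set of the coordinates -/
def Im : Set ((ℕ → ℕ) × (ℕ → ℕ)) :=
  {p | (∀ n, p.1 (p.2 n) = n) ∧ (∀ n j, j < p.2 n → p.1 j ≠ n) ∧
    ∀ m v, v < p.1 m → ∃ i, i < m ∧ p.1 i = v}

theorem range_phi : Set.range phi = Im := by
  ext p
  constructor
  · rintro ⟨A, rfl⟩
    refine ⟨fA_mu A, fun n j hj h => ((mu_eq_iff A n (mu A n)).1 rfl).2 j hj h, ?_⟩
    intro m v hv
    have hv' : v < fA A m := hv
    refine ⟨mu A v, ?_, fA_mu A v⟩
    exact lt_of_lt_of_le (mu_mono A hv') (mu_le A m)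
  · rintro ⟨h1, h2, h3⟩
    obtain ⟨f, u⟩ := p
    dsimp only at h1 h2 h3
    have hu : StrictMono u := by
      refine strictMono_nat_of_lt_succ fun n => ?_
      obtain ⟨i, hi, hi'⟩ := h3 (u (n + 1)) n (by rw [h1]; omega)
      refine lt_of_le_of_lt ?_ hi
      by_contra hc
      push Not at hc
      exact h2 n i hc hi'
    have hm : mins (Setoid.ker f) = Set.range u := by
      ext m
      constructor
      · intro hm
        refine ⟨f m, ?_⟩
        by_contra hc
        rcases Nat.lt_or_gt_of_ne hc with h4 | h4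
        · exact hm _ h4 (by show f (u (f m)) = f m; rw [h1])
        · exact h2 (f m) m h4 rfl
      · rintro ⟨n, rfl⟩
        intro k hk hr
        have hr' : f k = f (u n) := hr
        rw [h1] at hr'
        exact h2 n k hk hr'
    have hinf : (mins (Setoid.ker f)).Infinite := by
      rw [hm]
      exact Set.infinite_range_of_injective hu.injective
    obtain ⟨A, hA⟩ : ∃ A : EInf, A.1 = Setoid.ker f := ⟨⟨_, hinf⟩, rfl⟩
    refine ⟨A, ?_⟩
    have hmu : mu A = u := by
      rw [← (mu_mono A).range_inj hu, range_mu, hA]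
      exact hm
    have hf : fA A = f := by
      funext m
      rw [← r_iff, hmu, hA]
      show f m = f (u (f m))
      rw [h1]
    show (fA A, mu A) = (f, u)
    rw [hf, hmu]

theorem c1 (i : ℕ) : Continuous (fun p : (ℕ → ℕ) × (ℕ → ℕ) => p.1 i) :=
  (continuous_apply i).comp continuous_fst

theorem c2 (i : ℕ) : Continuous (fun p : (ℕ → ℕ) × (ℕ → ℕ) => p.2 i) :=
  (continuous_apply i).comp continuous_snd

/-- a set given by a condition on one value of `u` which, for each value, is closed -/
theorem closed_of (P : ℕ → Set ((ℕ → ℕ) × (ℕ → ℕ)))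
    (g : (ℕ → ℕ) × (ℕ → ℕ) → ℕ) (hg : Continuous g) (hP : ∀ k, IsClosed (P k)) :
    IsClosed {p : (ℕ → ℕ) × (ℕ → ℕ) | p ∈ P (g p)} := by
  rw [← isOpen_compl_iff]
  have h : {p : (ℕ → ℕ) × (ℕ → ℕ) | p ∈ P (g p)}ᶜ = ⋃ k, (g ⁻¹' {k} ∩ (P k)ᶜ) := by
    ext p
    simp only [mem_compl_iff, mem_ofPred_eq, mem_iUnion, mem_inter_iff, mem_preimage,
      mem_singleton_iff]
    constructor
    · intro h
      exact ⟨g p, rfl, h⟩
    · rintro ⟨k, rfl, h⟩
      exact h
  rw [h]
  exact isOpen_iUnion fun k => ((isOpen_discrete {k}).preimage hg).inter (hP k).isOpen_compl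

theorem closed_Im : IsClosed Im := by
  have e : Im = (⋂ n, {p : (ℕ → ℕ) × (ℕ → ℕ) | p ∈ (fun k => {q : (ℕ → ℕ) × (ℕ → ℕ) | q.1 k = n}) (p.2 n)}) ∩
      ((⋂ n, ⋂ j, {p : (ℕ → ℕ) × (ℕ → ℕ) | p ∈ (fun k => {q : (ℕ → ℕ) × (ℕ → ℕ) | j < k → q.1 j ≠ n}) (p.2 n)}) ∩
      (⋂ m, ⋂ v, {p : (ℕ → ℕ) × (ℕ → ℕ) | p ∈ (fun k => {q : (ℕ → ℕ) × (ℕ → ℕ) | v < k → ∃ i, i < m ∧ q.1 i = v}) (p.1 m)})) := by
    ext p
    simp only [Im, mem_ofPred_eq, mem_inter_iff, mem_iInter]
  rw [e]
  refine (isClosed_iInter fun n => ?_).inter ((isClosed_iInter fun n => isClosed_iInter fun j => ?_).inter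
    (isClosed_iInter fun m => isClosed_iInter fun v => ?_))
  · refine closed_of (fun k => {q : (ℕ → ℕ) × (ℕ → ℕ) | q.1 k = n}) (fun p => p.2 n) (c2 n)
      fun k => ?_
    exact (isClosed_discrete {n}).preimage (c1 k)
  · refine closed_of (fun k => {q : (ℕ → ℕ) × (ℕ → ℕ) | j < k → q.1 j ≠ n}) (fun p => p.2 n) (c2 n)
      fun k => ?_
    by_cases hk : j < k
    · simp only [hk, forall_const]
      exact (isClosed_discrete {n}ᶜ).preimage (c1 j)
    · simp only [hk, false_imp_iff, ofPred_true]
      exact isClosed_univ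
  · refine closed_of (fun k => {q : (ℕ → ℕ) × (ℕ → ℕ) | v < k → ∃ i, i < m ∧ q.1 i = v})
      (fun p => p.1 m) (c1 m) fun k => ?_
    by_cases hk : v < k
    · simp only [hk, forall_const]
      have h : {q : (ℕ → ℕ) × (ℕ → ℕ) | ∃ i, i < m ∧ q.1 i = v} =
          ⋃ i ∈ Finset.range m, {q : (ℕ → ℕ) × (ℕ → ℕ) | q.1 i = v} := by
        ext q
        simp only [mem_ofPred_eq, mem_iUnion, Finset.mem_range, exists_prop]
      rw [h]
      refine isClosed_biUnion_finset fun i _ => ?_
      exact (isClosed_discrete {v}).preimage (c1 i)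
    · simp only [hk, false_imp_iff, ofPred_true]
      exact isClosed_univ

theorem closedEmb : IsClosedEmbedding phi := by
  refine ⟨⟨?_, inj_phi⟩, ?_⟩
  · refine IsInducing.of_comp cont_phi cont_gam ?_
    rw [gam_phi]
    exact ⟨rfl⟩
  · rw [range_phi]
    exact closed_Im

/-- **the leaf**: the space is Polish -/
theorem t_polish : S_POLISH := closedEmb.polishSpace

theorem cntE_eq (A : EInf) (n : ℕ) : cntE A n = cnt (fA A) n := by
  unfold cntE cnt
  congr 1
  ext m
  simp only [Finset.mem_filter, Finset.mem_range, mem_mins_iff]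

theorem cont_cnt (n : ℕ) : Continuous (fun f : ℕ → ℕ => cnt f n) := by
  have h : (fun f : ℕ → ℕ => cnt f n) =
      (fun g : Fin n → ℕ => cnt (fun i => if h : i < n then g ⟨i, h⟩ else 0) n) ∘
        (fun f : ℕ → ℕ => fun i : Fin n => f i) := by
    funext f
    show cnt f n = cnt (fun i => if h : i < n then f i else 0) n
    unfold cnt
    congr 1
    ext m
    simp only [Finset.mem_filter, Finset.mem_range]
    refine and_congr_right fun hm => ?_
    refine forall_congr' fun j => ?_
    refine forall_congr' fun hj => ?_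
    rw [dif_pos hm, dif_pos (hj.trans hm)]
  rw [h]
  exact continuous_of_discreteTopology.comp (continuous_pi fun i => continuous_apply (i : ℕ))

theorem cont_cntE (n : ℕ) : Continuous (fun A => cntE A n) := by
  have h : (fun A => cntE A n) = (fun f : ℕ → ℕ => cnt f n) ∘ fA := by
    funext A
    exact cntE_eq A n
  rw [h]
  exact (cont_cnt n).comp (continuous_pi fun m => cont_fA m)

/-- **the leaf**: the relation is a countable union of closed sets -/
theorem t_closed : S_CLOSED := by
  refine ⟨fun N => {p | ∀ n, cntE p.1 n ≤ cntE p.2 n + N ∧ cntE p.2 n ≤ cntE p.1 n + N},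
    fun N => ?_, ?_⟩
  · have h : {p : EInf × EInf | ∀ n, cntE p.1 n ≤ cntE p.2 n + N ∧ cntE p.2 n ≤ cntE p.1 n + N} =
        ⋂ n, ({p : EInf × EInf | cntE p.1 n ≤ cntE p.2 n + N} ∩
          {p : EInf × EInf | cntE p.2 n ≤ cntE p.1 n + N}) := by
      ext p
      simp only [mem_ofPred_eq, mem_iInter, mem_inter_iff]
    show IsClosed {p : EInf × EInf | ∀ n, cntE p.1 n ≤ cntE p.2 n + N ∧ cntE p.2 n ≤ cntE p.1 n + N}
    rw [h]
    refine isClosed_iInter fun n => ?_
    have d1 : Continuous (fun p : EInf × EInf => cntE p.1 n) := (cont_cntE n).comp continuous_fst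
    have d2 : Continuous (fun p : EInf × EInf => cntE p.2 n) := (cont_cntE n).comp continuous_snd
    exact (isClosed_le d1 (d2.add continuous_const)).inter
      (isClosed_le d2 (d1.add continuous_const))
  · ext p
    simp only [mem_ofPred_eq, mem_iUnion]
    rfl

end Pool.Agent.N505.CS
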